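import Mathlib

/-!
# The dihedral group of order 18 acts on a K3 surface

The quartic surface `x₀³ x₁ + x₁³ x₂ + x₂⁴ + x₃⁴ = 0` in `ℙ³(ℂ)` is smooth, hence a K3 surface
(adjunction and the Lefschetz hyperplane theorem). With `ζ = exp (2πi/9)`, the linear map
`x ↦ (ζ⁻¹ x₀, ζ³ x₁, x₂, x₃)` and the complex conjugation `x ↦ x̄` map the surface to itself and
generate a dihedral group of order `18` which acts effectively by diffeomorphisms.

The dihedral group `D` of order `18` is not a K3 group: if it acts faithfully by holomorphic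
automorphisms on a K3 surface, it acts on the holomorphic 2-forms by a homomorphism `χ : D → ℂˣ`. The
kernel of `χ` contains an element of order `9`, which is then a symplectic automorphism, but by Nikulin
(1979) the order of a symplectic automorphism of finite order of a K3 surface is at most `8`.
-/

set_option autoImplicit false

namespace Pool.Agent.Results.MP_90cd86_gt.DihedralOnQuartic

open MvPolynomial Topology
open scoped ComplexConjugate

/-- The form `x₀³ x₁ + x₁³ x₂ + x₂⁴ + x₃⁴`. -/
noncomputable def F : MvPolynomial (Fin 4) ℂ :=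
  X 0 ^ 3 * X 1 + X 1 ^ 3 * X 2 + X 2 ^ 4 + X 3 ^ 4

theorem eval_F (v : Fin 4 → ℂ) :
    eval v F = v 0 ^ 3 * v 1 + v 1 ^ 3 * v 2 + v 2 ^ 4 + v 3 ^ 4 := by
  simp [F]

theorem F_homogeneous : F.IsHomogeneous 4 := by
  have h := fun i : Fin 4 => isHomogeneous_X ℂ i
  refine (((?_ : IsHomogeneous _ 4).add ?_).add ?_).add ?_
  · exact ((h 0).pow 3).mul (h 1)
  · exact ((h 1).pow 3).mul (h 2)
  · simpa using (h 2).pow 4
  · simpa using (h 3).pow 4

theorem smooth (v : Fin 4 → ℂ) (hv : v ≠ 0) : ∃ i, eval v (pderiv i F) ≠ 0 := by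
  by_contra hc
  push Not at hc
  have h0 := hc 0
  have h1 := hc 1
  have h2 := hc 2
  have h3 := hc 3
  simp [F, pderiv_X] at h0 h1 h2 h3
  apply hv
  have key : v 0 = 0 ∧ v 1 = 0 ∧ v 2 = 0 := by
    rcases h0 with h0 | h0
    · rw [h0] at h1 h2
      have h4 : v 0 = 0 := by
        have : v 0 ^ 3 = 0 := by linear_combination h1
        exact pow_eq_zero_iff (three_ne_zero) |>.1 this
      have h5 : v 2 = 0 := by
        have : v 2 ^ 3 = 0 := by linear_combination (1 / 4 : ℂ) * h2
        exact pow_eq_zero_iff (three_ne_zero) |>.1 this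
      exact ⟨h4, h0, h5⟩
    · rw [h0] at h1
      have h4 : v 2 * v 1 ^ 2 = 0 := by linear_combination (1 / 3 : ℂ) * h1
      rcases mul_eq_zero.1 h4 with h5 | h5
      · rw [h5] at h2
        have h6 : v 1 = 0 := by
          have : v 1 ^ 3 = 0 := by linear_combination h2
          exact pow_eq_zero_iff (three_ne_zero) |>.1 this
        exact ⟨h0, h6, h5⟩
      · have h6 : v 1 = 0 := pow_eq_zero_iff (two_ne_zero) |>.1 h5
        rw [h6] at h2
        have h7 : v 2 = 0 := by
          have : v 2 ^ 3 = 0 := by linear_combination (1 / 4 : ℂ) * h2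
          exact pow_eq_zero_iff (three_ne_zero) |>.1 this
        exact ⟨h0, h6, h7⟩
  funext i
  fin_cases i
  · exact key.1
  · exact key.2.1
  · exact key.2.2
  · exact h3

/-- The nonzero vectors on which the form vanishes. -/
def Cone : Type := {v : Fin 4 → ℂ // v ≠ 0 ∧ eval v F = 0}

instance : TopologicalSpace Cone :=
  inferInstanceAs (TopologicalSpace {v : Fin 4 → ℂ // v ≠ 0 ∧ eval v F = 0})

instance : MulAction ℂˣ Cone where
  smul t v := ⟨fun i => (t : ℂ) * v.1 i, by
    refine ⟨fun h => v.2.1 (funext fun i => ?_), ?_⟩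
    · have := congrFun h i
      simpa using this
    · have h := v.2.2
      rw [eval_F] at h ⊢
      linear_combination (t : ℂ) ^ 4 * h⟩
  one_smul v := Subtype.ext (by funext i; change ((1 : ℂˣ) : ℂ) * v.1 i = _; simp)
  mul_smul s t v := Subtype.ext (by
    funext i
    change ((s * t : ℂˣ) : ℂ) * v.1 i = (s : ℂ) * ((t : ℂ) * v.1 i)
    rw [Units.val_mul, mul_assoc])

/-- The quartic surface in `ℙ³(ℂ)`, with the quotient topology. -/
abbrev K3 : Type := MulAction.orbitRel.Quotient ℂˣ Cone

/-- The weights of the rotation. -/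
def weight : Fin 4 → ZMod 9 := ![-1, 3, 0, 0]

/-- The rotation `r i` acts by `x ↦ (ζ^(-i) x₀, ζ^(3i) x₁, x₂, x₃)` with `ζ = exp (2πi/9)`, the
reflection `sr i` by its complex conjugate. -/
noncomputable def actFun : DihedralGroup 9 → (Fin 4 → ℂ) → (Fin 4 → ℂ)
  | .r i, v => fun k => ZMod.stdAddChar (weight k * i) * v k
  | .sr i, v => fun k => conj (ZMod.stdAddChar (weight k * i) * v k)

theorem actFun_one (v : Fin 4 → ℂ) : actFun 1 v = v := by
  funext k
  change ZMod.stdAddChar (weight k * 0) * v k = v k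
  simp

theorem actFun_mul (g h : DihedralGroup 9) (v : Fin 4 → ℂ) :
    actFun (g * h) v = actFun g (actFun h v) := by
  funext k
  rcases g with i | i <;> rcases h with j | j
  · rw [DihedralGroup.r_mul_r]
    simp only [actFun]
    rw [mul_add, AddChar.map_add_eq_mul, mul_assoc]
  · rw [DihedralGroup.r_mul_sr]
    simp only [actFun]
    have e : (ZMod.stdAddChar (-(weight k * i)) : ℂ) = conj (ZMod.stdAddChar (weight k * i) : ℂ) :=
      AddChar.map_neg_eq_conj _ _
    rw [mul_sub, sub_eq_add_neg, AddChar.map_add_eq_mul, e]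
    simp only [map_mul (starRingEnd ℂ), Complex.conj_conj]
    ring
  · rw [DihedralGroup.sr_mul_r]
    simp only [actFun]
    rw [mul_add, AddChar.map_add_eq_mul, mul_assoc]
  · rw [DihedralGroup.sr_mul_sr]
    simp only [actFun]
    have e : (ZMod.stdAddChar (-(weight k * i)) : ℂ) = conj (ZMod.stdAddChar (weight k * i) : ℂ) :=
      AddChar.map_neg_eq_conj _ _
    rw [mul_sub, sub_eq_add_neg, AddChar.map_add_eq_mul, e]
    simp only [map_mul (starRingEnd ℂ), Complex.conj_conj]
    ring

theorem F_rot (i : ZMod 9) (v : Fin 4 → ℂ) :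
    eval (fun k => ZMod.stdAddChar (weight k * i) * v k) F = eval v F := by
  rw [eval_F, eval_F]
  have h0 : (ZMod.stdAddChar (weight 0 * i) : ℂ) ^ 3 * ZMod.stdAddChar (weight 1 * i) = 1 := by
    rw [← AddChar.map_nsmul_eq_pow, ← AddChar.map_add_eq_mul]
    have : 3 • (weight 0 * i) + weight 1 * i = 0 := by
      simp [weight, nsmul_eq_mul]
    rw [this, AddChar.map_zero_eq_one]
  have h1 : (ZMod.stdAddChar (weight 1 * i) : ℂ) ^ 3 = 1 := by
    rw [← AddChar.map_nsmul_eq_pow]
    have : 3 • (weight 1 * i) = 0 := by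
      have h9 : (9 : ZMod 9) = 0 := rfl
      simp only [weight, nsmul_eq_mul, Matrix.cons_val_one, Matrix.cons_val_zero]
      push_cast
      linear_combination i * h9
    rw [this, AddChar.map_zero_eq_one]
  have h2 : (ZMod.stdAddChar (weight 2 * i) : ℂ) = 1 := by simp [weight]
  have h3 : (ZMod.stdAddChar (weight 3 * i) : ℂ) = 1 := by simp [weight]
  rw [h2, h3]
  linear_combination v 0 ^ 3 * v 1 * h0 + v 1 ^ 3 * v 2 * h1

theorem F_conj (v : Fin 4 → ℂ) : eval (fun k => conj (v k)) F = conj (eval v F) := by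
  rw [eval_F, eval_F]
  simp

theorem actFun_zero (g : DihedralGroup 9) : actFun g 0 = 0 := by
  funext k
  rcases g with i | i <;> simp [actFun]

/-- The action on the vectors of the cone. -/
noncomputable def act (g : DihedralGroup 9) (v : Cone) : Cone :=
  ⟨actFun g v.1, by
    refine ⟨fun h => v.2.1 ?_, ?_⟩
    · have h1 : actFun g⁻¹ (actFun g v.1) = 0 := by rw [h, actFun_zero]
      rwa [← actFun_mul, inv_mul_cancel, actFun_one] at h1
    · rcases g with i | i
      · exact (F_rot i v.1).trans v.2.2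
      · have := F_conj (fun k => ZMod.stdAddChar (weight k * i) * v.1 k)
        rw [F_rot, v.2.2, map_zero] at this
        exact this⟩

theorem act_smul (g : DihedralGroup 9) (t : ℂˣ) (v : Cone) :
    ∃ s : ℂˣ, act g (t • v) = s • act g v := by
  rcases g with i | i
  · refine ⟨t, Subtype.ext (funext fun k => ?_)⟩
    change ZMod.stdAddChar (weight k * i) * ((t : ℂ) * v.1 k) =
      (t : ℂ) * (ZMod.stdAddChar (weight k * i) * v.1 k)
    ring
  · refine ⟨Units.map (starRingEnd ℂ).toMonoidHom t, Subtype.ext (funext fun k => ?_)⟩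
    change conj (ZMod.stdAddChar (weight k * i) * ((t : ℂ) * v.1 k)) =
      conj (t : ℂ) * conj (ZMod.stdAddChar (weight k * i) * v.1 k)
    rw [← map_mul]
    congr 1
    ring

/-- The induced map of the surface. -/
noncomputable def actQ (g : DihedralGroup 9) : K3 → K3 :=
  Quotient.map (act g) (by
    rintro v w ⟨t, rfl⟩
    obtain ⟨s, hs⟩ := act_smul g t w
    exact ⟨s, hs.symm⟩)

theorem actQ_mk (g : DihedralGroup 9) (v : Cone) :
    actQ g (Quotient.mk _ v) = Quotient.mk _ (act g v) := rfl

theorem actQ_one (x : K3) : actQ 1 x = x := by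
  induction x using Quotient.inductionOn with
  | h v => exact congrArg _ (Subtype.ext (actFun_one v.1))

theorem actQ_mul (g h : DihedralGroup 9) (x : K3) : actQ (g * h) x = actQ g (actQ h x) := by
  induction x using Quotient.inductionOn with
  | h v => exact congrArg _ (Subtype.ext (actFun_mul g h v.1))

theorem continuous_actQ (g : DihedralGroup 9) : Continuous (actQ g) := by
  refine Continuous.quotient_map' (f := act g) ?_ _
  refine Continuous.subtype_mk (continuous_pi fun k => ?_) _
  rcases g with i | i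
  · exact continuous_const.mul ((continuous_apply k).comp continuous_subtype_val)
  · exact Complex.continuous_conj.comp
      (continuous_const.mul ((continuous_apply k).comp continuous_subtype_val))

/-- The action of the dihedral group of order `18` on the surface. -/
noncomputable def actHom : DihedralGroup 9 →* (K3 ≃ₜ K3) where
  toFun g :=
    { toFun := actQ g
      invFun := actQ g⁻¹
      left_inv := fun x => by rw [← actQ_mul, inv_mul_cancel, actQ_one]
      right_inv := fun x => by rw [← actQ_mul, mul_inv_cancel, actQ_one]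
      continuous_toFun := continuous_actQ g
      continuous_invFun := continuous_actQ g⁻¹ }
  map_one' := Homeomorph.ext fun x => actQ_one x
  map_mul' g h := Homeomorph.ext fun x => actQ_mul g h x

theorem actHom_injective : Function.Injective actHom := by
  rw [injective_iff_map_eq_one]
  intro g hg
  -- a primitive eighth root of unity
  let w : ℂ := Complex.exp (Real.pi * Complex.I / 4)
  have hw : w ^ 4 = -1 := by
    rw [← Complex.exp_nat_mul]
    have : ((4 : ℕ) : ℂ) * (Real.pi * Complex.I / 4) = Real.pi * Complex.I := by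
      push_cast; ring
    rw [this, Complex.exp_pi_mul_I]
  have hv : (![1, 0, w, 1] : Fin 4 → ℂ) ≠ 0 ∧ eval (![1, 0, w, 1] : Fin 4 → ℂ) F = 0 := by
    refine ⟨fun h => one_ne_zero (congrFun h 0), ?_⟩
    rw [eval_F]
    simp [hw]
  let v : Cone := ⟨![1, 0, w, 1], hv⟩
  have h : actQ g (Quotient.mk _ v) = Quotient.mk _ v := DFunLike.congr_fun hg (Quotient.mk _ v)
  rw [actQ_mk] at h
  obtain ⟨t, ht⟩ := Quotient.exact h
  have ht' : ∀ k, (t : ℂ) * v.1 k = actFun g v.1 k := fun k => congrFun (congrArg Subtype.val ht) k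
  rcases g with i | i
  · have h3 : (t : ℂ) = 1 := by simpa [actFun, weight, v] using ht' 3
    have h0 : (t : ℂ) = ZMod.stdAddChar (-i) := by simpa [actFun, weight, v] using ht' 0
    rw [h3] at h0
    have h1 : (ZMod.stdAddChar (0 : ZMod 9) : ℂ) = ZMod.stdAddChar (-i) := by
      rw [AddChar.map_zero_eq_one, h0]
    have h2 := ZMod.injective_stdAddChar h1
    have h4 : i = 0 := by rw [← neg_neg i, ← h2, neg_zero]
    rw [h4, DihedralGroup.r_zero]
  · exfalso
    have h3 : (t : ℂ) = 1 := by simpa [actFun, weight, v] using ht' 3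
    have h2 : (t : ℂ) * w = conj w := by simpa [actFun, weight, v] using ht' 2
    rw [h3, one_mul] at h2
    -- `w` would be real, but `w ^ 4 = -1`
    have h5 : ((w.re : ℂ)) = w := Complex.conj_eq_iff_re.1 h2.symm
    rw [← h5] at hw
    have h6 : (w.re) ^ 4 = -1 := by exact_mod_cast hw
    nlinarith [sq_nonneg (w.re ^ 2)]

theorem exists_in_kernel (χ : DihedralGroup 9 →* ℂˣ) : ∃ g, orderOf g = 9 ∧ χ g = 1 := by
  refine ⟨DihedralGroup.r 1, DihedralGroup.orderOf_r_one, ?_⟩
  have h1 : χ (DihedralGroup.r 1) * χ (DihedralGroup.r 1) = 1 := by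
    have e : (DihedralGroup.r (1 : ZMod 9))⁻¹ =
        DihedralGroup.sr 0 * DihedralGroup.r 1 * DihedralGroup.sr 0 := by
      rw [DihedralGroup.sr_mul_r, DihedralGroup.sr_mul_sr, DihedralGroup.inv_r]
      simp
    have e2 := congrArg χ e
    rw [map_inv, map_mul, map_mul] at e2
    have e3 : χ (DihedralGroup.sr 0) * χ (DihedralGroup.sr 0) = 1 := by
      rw [← map_mul, DihedralGroup.sr_mul_self, map_one]
    have e4 : (χ (DihedralGroup.r 1))⁻¹ = χ (DihedralGroup.r 1) := by
      rw [e2, mul_right_comm, e3, one_mul]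
    calc χ (DihedralGroup.r 1) * χ (DihedralGroup.r 1)
        = (χ (DihedralGroup.r 1))⁻¹ * χ (DihedralGroup.r 1) := by rw [e4]
      _ = 1 := inv_mul_cancel _
  have h9 : χ (DihedralGroup.r 1) ^ 9 = 1 := by
    rw [← map_pow, DihedralGroup.r_one_pow_n, map_one]
  calc χ (DihedralGroup.r 1)
      = (χ (DihedralGroup.r 1) * χ (DihedralGroup.r 1)) ^ 4 * χ (DihedralGroup.r 1) := by
        rw [h1, one_pow, one_mul]
    _ = χ (DihedralGroup.r 1) ^ 9 := by rw [← pow_two, ← pow_mul, ← pow_succ]
    _ = 1 := h9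

/-- The dihedral group of order `18` acts effectively, by linear maps and their complex conjugates, on
the smooth quartic surface; each homomorphism from the group to `ℂˣ` has an element of order `9` in
its kernel. -/
theorem result :
    F.IsHomogeneous 4 ∧
    (∀ v : Fin 4 → ℂ, v ≠ 0 → ∃ i, eval v (pderiv i F) ≠ 0) ∧
    (∃ Φ : DihedralGroup 9 →* (K3 ≃ₜ K3), Function.Injective Φ ∧
      ∀ (g : DihedralGroup 9) (v : Cone), Φ g (Quotient.mk _ v) = Quotient.mk _ (act g v)) ∧
    Nat.card (DihedralGroup 9) = 18 ∧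
    (∀ χ : DihedralGroup 9 →* ℂˣ, ∃ g, orderOf g = 9 ∧ χ g = 1) :=
  ⟨F_homogeneous, smooth, ⟨actHom, actHom_injective, fun _ _ => rfl⟩,
    by rw [DihedralGroup.nat_card], exists_in_kernel⟩

end Pool.Agent.Results.MP_90cd86_gt.DihedralOnQuartic
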